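import Pool.Agent.Helper75.Torus.Goals

set_option autoImplicit false

/-!
# MP_beb0a8_an, packet TORUS-CURLP: equal curls give equal pairings
-/

open Set MeasureTheory Matrix

namespace Pool.Agent.Helper32.Torus.Curlp

open Pool.Agent.Helper75.Torus
open Pool.Agent.Helper75.Flow (curlL)

theorem fd_apply {f : E → E} {Y : E} (h : DifferentiableAt ℝ f Y) (v : E) (i : Fin 3) :
    fderiv ℝ f Y v i = fderiv ℝ (fun Z => f Z i) Y v := by
  have h1 := (hasFDerivAt_pi'.1 h.hasFDerivAt i).fderiv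
  rw [h1]
  rfl

theorem parts {f g : E → ℝ} (hf : ContDiff ℝ 1 f) (hg : ContDiff ℝ 1 g)
    (hc : HasCompactSupport g) (v : E) :
    Integrable (fun Y => f Y * fderiv ℝ g Y v) ∧ Integrable (fun Y => fderiv ℝ f Y v * g Y) ∧
      ∫ Y, f Y * fderiv ℝ g Y v = - ∫ Y, fderiv ℝ f Y v * g Y := by
  have hf' : Continuous fun Y => fderiv ℝ f Y v :=
    (hf.continuous_fderiv one_ne_zero).clm_apply continuous_const
  have hg' : Continuous fun Y => fderiv ℝ g Y v :=
    (hg.continuous_fderiv one_ne_zero).clm_apply continuous_const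
  have hc' : HasCompactSupport fun Y => fderiv ℝ g Y v := hc.fderiv_apply ℝ v
  have h1 : Integrable (fun Y => f Y * fderiv ℝ g Y v) :=
    (hf.continuous.mul hg').integrable_of_hasCompactSupport hc'.mul_left
  have h2 : Integrable (fun Y => fderiv ℝ f Y v * g Y) :=
    (hf'.mul hg.continuous).integrable_of_hasCompactSupport hc.mul_left
  have h3 : Integrable (fun Y => f Y * g Y) :=
    (hf.continuous.mul hg.continuous).integrable_of_hasCompactSupport hc.mul_left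
  exact ⟨h1, h2, integral_mul_fderiv_eq_neg_fderiv_mul_of_integrable h2 h1 h3
    (fun x _ => (hf.differentiable one_ne_zero) x) (fun x _ => (hg.differentiable one_ne_zero) x)⟩

theorem int6 {a b c d e f : E → ℝ} (ha : Integrable a) (hb : Integrable b) (hc : Integrable c)
    (hd : Integrable d) (he : Integrable e) (hf : Integrable f) :
    ∫ Y, ((a Y - b Y) + (c Y - d Y)) + (e Y - f Y) =
      ((∫ Y, a Y) - (∫ Y, b Y)) + ((∫ Y, c Y) - (∫ Y, d Y)) + ((∫ Y, e Y) - (∫ Y, f Y)) := by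
  have h1 : Integrable (fun Y => a Y - b Y) := ha.sub hb
  have h2 : Integrable (fun Y => c Y - d Y) := hc.sub hd
  have h3 : Integrable (fun Y => e Y - f Y) := he.sub hf
  have h4 : Integrable (fun Y => (a Y - b Y) + (c Y - d Y)) := h1.add h2
  rw [integral_add h4 h3, integral_add h1 h2, integral_sub ha hb, integral_sub hc hd,
    integral_sub he hf]

theorem curl_parts {V Q : E → E} (hV : ContDiff ℝ 1 V) (hQ : ContDiff ℝ 1 Q)
    (hc : HasCompactSupport Q) :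
    ∫ Y, V Y ⬝ᵥ curlL (fderiv ℝ Q Y) = ∫ Y, curlL (fderiv ℝ V Y) ⬝ᵥ Q Y := by
  have hVi : ∀ i, ContDiff ℝ 1 (fun Y => V Y i) := fun i => (contDiff_pi.1 hV) i
  have hQi : ∀ i, ContDiff ℝ 1 (fun Y => Q Y i) := fun i => (contDiff_pi.1 hQ) i
  have hci : ∀ i, HasCompactSupport (fun Y => Q Y i) := fun i =>
    hc.comp_left (g := fun z : E => z i) rfl
  have hp := fun i k v => parts (hVi i) (hQi k) (hci k) v
  have hdV : ∀ Y, DifferentiableAt ℝ V Y := fun Y => (hV.differentiable one_ne_zero) Y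
  have hdQ : ∀ Y, DifferentiableAt ℝ Q Y := fun Y => (hQ.differentiable one_ne_zero) Y
  have hL : ∀ Y, V Y ⬝ᵥ curlL (fderiv ℝ Q Y) =
      ((V Y 0 * fderiv ℝ (fun Z => Q Z 2) Y (Pi.single 1 1) -
        V Y 0 * fderiv ℝ (fun Z => Q Z 1) Y (Pi.single 2 1)) +
      (V Y 1 * fderiv ℝ (fun Z => Q Z 0) Y (Pi.single 2 1) -
        V Y 1 * fderiv ℝ (fun Z => Q Z 2) Y (Pi.single 0 1))) +
      (V Y 2 * fderiv ℝ (fun Z => Q Z 1) Y (Pi.single 0 1) -
        V Y 2 * fderiv ℝ (fun Z => Q Z 0) Y (Pi.single 1 1)) := by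
    intro Y
    simp only [curlL, dotProduct, Fin.sum_univ_three, Matrix.cons_val_zero, Matrix.cons_val_one,
      Matrix.cons_val_two, Matrix.tail_cons, Matrix.head_cons]
    rw [fd_apply (hdQ Y), fd_apply (hdQ Y), fd_apply (hdQ Y), fd_apply (hdQ Y), fd_apply (hdQ Y),
      fd_apply (hdQ Y)]
    ring
  have hR : ∀ Y, curlL (fderiv ℝ V Y) ⬝ᵥ Q Y =
      ((fderiv ℝ (fun Z => V Z 2) Y (Pi.single 1 1) * Q Y 0 -
        fderiv ℝ (fun Z => V Z 1) Y (Pi.single 2 1) * Q Y 0) +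
      (fderiv ℝ (fun Z => V Z 0) Y (Pi.single 2 1) * Q Y 1 -
        fderiv ℝ (fun Z => V Z 2) Y (Pi.single 0 1) * Q Y 1)) +
      (fderiv ℝ (fun Z => V Z 1) Y (Pi.single 0 1) * Q Y 2 -
        fderiv ℝ (fun Z => V Z 0) Y (Pi.single 1 1) * Q Y 2) := by
    intro Y
    simp only [curlL, dotProduct, Fin.sum_univ_three, Matrix.cons_val_zero, Matrix.cons_val_one,
      Matrix.cons_val_two, Matrix.tail_cons, Matrix.head_cons]
    rw [fd_apply (hdV Y), fd_apply (hdV Y), fd_apply (hdV Y), fd_apply (hdV Y), fd_apply (hdV Y),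
      fd_apply (hdV Y)]
    ring
  simp only [hL, hR]
  rw [int6 (hp 0 2 _).1 (hp 0 1 _).1 (hp 1 0 _).1 (hp 1 2 _).1 (hp 2 1 _).1 (hp 2 0 _).1,
    int6 (hp 2 0 _).2.1 (hp 1 0 _).2.1 (hp 0 1 _).2.1 (hp 2 1 _).2.1 (hp 1 2 _).2.1 (hp 0 2 _).2.1,
    (hp 0 2 _).2.2, (hp 0 1 _).2.2, (hp 1 0 _).2.2, (hp 1 2 _).2.2, (hp 2 1 _).2.2,
    (hp 2 0 _).2.2]
  ring

theorem curlL_smul (c : ℝ) (L : E →L[ℝ] E) : curlL (c • L) = c • curlL L := by
  funext i
  fin_cases i <;> simp [curlL] <;> ring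

theorem fderiv_scale {v : E → E} (hv : ContDiff ℝ 1 v) (x : E) (c : ℝ) (Y : E) :
    fderiv ℝ (fun Y => v (x + c • Y)) Y = c • fderiv ℝ v (x + c • Y) := by
  have h1 : HasFDerivAt (fun Y : E => x + c • Y) (c • ContinuousLinearMap.id ℝ E) Y :=
    ((hasFDerivAt_id Y).const_smul c).const_add x
  have h2 := ((hv.differentiable one_ne_zero) (x + c • Y)).hasFDerivAt.comp Y h1
  have h3 := h2.fderiv
  simp only [Function.comp_def] at h3
  rw [h3]
  ext z i
  simp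

theorem thm (hT : G_T1A) : G_CURLP := by
  intro α η v w x x' κ b lam δ τ hη hκ hlam hδ hv hw hcurl
  obtain ⟨-, hT2⟩ := hT η κ hη hκ
  obtain ⟨hT3, -⟩ := hT2 δ hδ τ
  obtain ⟨-, -, hQ, hc⟩ := hT3 b
  have hQ1 : ContDiff ℝ 1 (Qf η κ δ τ b) := hQ.of_le (by norm_num)
  have key : ∀ (f : E → E) (z : E), ContDiff ℝ 1 f →
      ∫ Y, f (z + lam⁻¹ • Y) ⬝ᵥ Tf η κ δ τ b Y =
        ∫ Y, (lam⁻¹ • curlL (fderiv ℝ f (z + lam⁻¹ • Y))) ⬝ᵥ Qf η κ δ τ b Y := by
    intro f z hf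
    have hV : ContDiff ℝ 1 (fun Y : E => f (z + lam⁻¹ • Y)) :=
      hf.comp (contDiff_const.add (contDiff_id.const_smul lam⁻¹))
    have h1 := curl_parts hV hQ1 hc
    simp only [fderiv_scale hf, curlL_smul] at h1
    exact h1
  unfold pair
  simp only [ContinuousLinearMap.id_apply]
  rw [key v x hv, key w x' hw]
  simp only [hcurl]

end Pool.Agent.Helper32.Torus.Curlp
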